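import Pool.Agent.Lib.MP_666dc0_nt.EP.C1b
import Pool.Agent.Lib.MP_666dc0_nt.EP.T2a

/-!
# EC, B2: the Hecke operators
-/

open NumberField IsDedekindDomain
open scoped NumberField

namespace Pool.Agent.Lib.MP_666dc0_nt.EC

open WL EP

variable {F : Type} [Field F] [NumberField F] {n : ℕ} {D : Datum F n} {ℓ : ℕ} [Fact ℓ.Prime]

section

variable (L : Level D ℓ)

/-- The Hecke operator can be computed with any representative of the class. -/
theorem op_single' {v : HeightOneSpectrum (𝓞 F)}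
    (hv : ∀ u ∈ L.U, ∃ a ∈ L.U, a ∈ locSub D v ∧ TrivialAt v (a⁻¹ * u)) (h : L.Hecke v)
    (g : D.Ad) : L.op h (Finsupp.single (L.cls g) 1) = h.1.sum fun c a =>
      Finsupp.single (L.cls (g * ((Quotient.out c : locSub D v) : D.Ad))) a := by
  obtain ⟨g₀, hg₀⟩ : ∃ g₀ : D.Ad, g₀ = (Quotient.out (L.cls g) : D.Ad) := ⟨_, rfl⟩
  have hcls : L.cls g₀ = L.cls g := by rw [hg₀, L.cls_out]
  have hu : g₀⁻¹ * g ∈ L.U := L.cls_eq_iff.1 hcls
  obtain ⟨a, haU, hav, htr⟩ := hv _ hu
  let a' : locSub D v := ⟨a, hav⟩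
  have ha' : a' ∈ L.U.subgroupOf (locSub D v) := Subgroup.mem_subgroupOf.2 haU
  have hkey : ∀ c : locSub D v ⧸ L.U.subgroupOf (locSub D v),
      L.cls (g * ((Quotient.out c : locSub D v) : D.Ad)) =
        L.cls (g₀ * ((Quotient.out (a' • c) : locSub D v) : D.Ad)) := by
    intro c
    obtain ⟨x, hx⟩ : ∃ x : locSub D v, x = Quotient.out c := ⟨_, rfl⟩
    rw [← hx]
    have h1 : (QuotientGroup.mk (a' * x) : locSub D v ⧸ L.U.subgroupOf (locSub D v)) =
        QuotientGroup.mk (Quotient.out (a' • c)) := by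
      have h2 : (QuotientGroup.mk (Quotient.out (a' • c)) :
          locSub D v ⧸ L.U.subgroupOf (locSub D v)) = a' • c := QuotientGroup.out_eq' _
      have h3 : (QuotientGroup.mk x : locSub D v ⧸ L.U.subgroupOf (locSub D v)) = c := by
        rw [hx]
        exact QuotientGroup.out_eq' _
      rw [h2, ← h3]
      rfl
    rw [← L.cls_mul_of_mk_eq g₀ h1, L.cls_eq_iff]
    have hcomm : a⁻¹ * (g₀⁻¹ * g) * (x : D.Ad) = (x : D.Ad) * (a⁻¹ * (g₀⁻¹ * g)) := by
      apply mul_comm_of_disjoint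
      intro w
      by_cases hw : w = v
      · rw [hw]
        exact Or.inl htr
      · exact Or.inr (x.2 w hw)
    have h4 : g = g₀ * (a * (a⁻¹ * (g₀⁻¹ * g))) := by group
    have h5 : (g * (x : D.Ad))⁻¹ * (g₀ * ((a' * x : locSub D v) : D.Ad)) =
        (a⁻¹ * (g₀⁻¹ * g))⁻¹ := by
      have h6 : g * (x : D.Ad) = g₀ * (a * (x * (a⁻¹ * (g₀⁻¹ * g)))) := by
        rw [← hcomm]
        group
      have h7 : (a' : D.Ad) = a := rfl
      rw [h6, Subgroup.coe_mul, h7]
      group
    rw [h5]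
    exact L.U.inv_mem (L.U.mul_mem (L.U.inv_mem haU) hu)
  rw [Level.op, Finsupp.linearCombination_single, one_smul, ← hg₀, Finsupp.sum, Finsupp.sum]
  symm
  refine Finset.sum_equiv (MulAction.toPerm a') ?_ ?_
  · intro c
    rw [MulAction.toPerm_apply, Finsupp.mem_support_iff, Finsupp.mem_support_iff, h.2 a' ha' c]
  · intro c _
    rw [MulAction.toPerm_apply, h.2 a' ha' c, hkey c]

/-- The Hecke function with rational coefficients. -/
noncomputable def toW {v : HeightOneSpectrum (𝓞 F)} (h : L.Hecke v) : Hecke L.U v :=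
  ⟨h.1.mapRange Subtype.val rfl, fun u hu c => by
    rw [Finsupp.mapRange_apply, Finsupp.mapRange_apply]
    exact congrArg _ (h.2 u (Subgroup.mem_subgroupOf.2 hu) c)⟩

theorem toW_isIntegral {v : HeightOneSpectrum (𝓞 F)} (h : L.Hecke v) :
    (toW L h).IsIntegral ℓ := by
  intro c
  exact (h.1 c).2

/-- An integral Hecke function. -/
noncomputable def ofInt {v : HeightOneSpectrum (𝓞 F)} (h : Hecke L.U v) (hh : h.IsIntegral ℓ) :
    L.Hecke v :=
  ⟨Finsupp.onFinset h.1.support (fun c => ⟨h.1 c, hh c⟩) fun c hc => by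
    rw [Finsupp.mem_support_iff]
    intro h0
    exact hc (Subtype.ext h0), fun u hu c => by
    rw [Finsupp.onFinset_apply, Finsupp.onFinset_apply]
    exact Subtype.ext (h.2 u (Subgroup.mem_subgroupOf.1 hu) c)⟩

theorem toW_ofInt {v : HeightOneSpectrum (𝓞 F)} (h : Hecke L.U v) (hh : h.IsIntegral ℓ) :
    toW L (ofInt L h hh) = h := by
  apply Subtype.ext
  ext c
  rfl

theorem toW_sum {v : HeightOneSpectrum (𝓞 F)} (h : L.Hecke v) {M : Type} [AddCommGroup M]
    [Module ℂ M] (f : LocQuot L.U v → M) :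
    ((toW L h).1.sum fun c a => (a : ℂ) • f c) =
      h.1.sum fun c a => algebraMap (Zl ℓ) ℂ a • f c := by
  unfold toW
  rw [Finsupp.sum_mapRange_index]
  · rfl
  · intro c
    rw [Rat.cast_zero, zero_smul]

/-- The transpose of the Hecke operator, in terms of functions on `G(𝔸_f)`. -/
theorem pull_op {v : HeightOneSpectrum (𝓞 F)}
    (hv : ∀ u ∈ L.U, ∃ a ∈ L.U, a ∈ locSub D v ∧ TrivialAt v (a⁻¹ * u)) (h : L.Hecke v)
    {M : Type} [AddCommGroup M] [Module ℂ M] (f : L.X → M) (g : D.Ad) :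
    pull ℂ M (L.op h) f (L.cls g) = (toW L h).act (fun g => f (L.cls g)) g := by
  change ((L.op h (Finsupp.single (L.cls g) 1)).sum fun z r => algebraMap (Zl ℓ) ℂ r • f z) = _
  rw [op_single' L hv]
  rw [Finsupp.sum_sum_index (fun z => by rw [map_zero, zero_smul])
    (fun z r s => by rw [map_add, add_smul])]
  unfold Hecke.act
  rw [toW_sum L h fun c => f (L.cls (g * (Quotient.out c : locSub D v)))]
  refine Finsupp.sum_congr fun c _ => ?_
  exact Finsupp.sum_single_index (by rw [map_zero, zero_smul])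

theorem isGoodAt {v : HeightOneSpectrum (𝓞 F)} (hv : IsGoodAt L.U v) : L.IsGoodAt v where
  split := hv.split
  comm h h' := by
    classical
    have h1 : ∀ (h h' : L.Hecke v) (f : L.X → ℂ) (g : D.Ad),
        (toW L h).act ((toW L h').act fun g => f (L.cls g)) g =
          pull ℂ ℂ (L.op h' ∘ₗ L.op h) f (L.cls g) := by
      intro h h' f g
      rw [pull_comp]
      change _ = pull ℂ ℂ (L.op h) (pull ℂ ℂ (L.op h') f) (L.cls g)
      rw [pull_op L hv.split]
      congr 1
      funext g'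
      rw [pull_op L hv.split]
    have h2 : ∀ f : L.X → ℂ, pull ℂ ℂ (L.op h' ∘ₗ L.op h) f =
        pull ℂ ℂ (L.op h ∘ₗ L.op h') f := by
      intro f
      funext x
      obtain ⟨g, rfl⟩ := L.exists_cls x
      rw [← h1, ← h1]
      have h3 := hv.comm (toW L h) (toW L h') (fun g => f (L.cls g)) fun g u hu => by
        congr 1
        rw [L.cls_eq_iff]
        have h4 : (g * u)⁻¹ * g = u⁻¹ := by group
        rw [h4]
        exact L.U.inv_mem hu
      rw [h3]
    have h5 : ∀ (c : (L.X →₀ Zl ℓ) →ₗ[Zl ℓ] (L.X →₀ Zl ℓ)) (x y : L.X),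
        pull ℂ ℂ c (fun z => if z = x then 1 else 0) y =
          algebraMap (Zl ℓ) ℂ (c (Finsupp.single y 1) x) := by
      intro c x y
      change ((c (Finsupp.single y 1)).sum fun z r => algebraMap (Zl ℓ) ℂ r •
        (if z = x then (1 : ℂ) else 0)) = _
      simp only [smul_eq_mul, mul_ite, mul_one, mul_zero]
      rw [Finsupp.sum_ite_eq']
      split_ifs with h6
      · rfl
      · rw [Finsupp.notMem_support_iff.1 h6, map_zero]
    have hinj : Function.Injective (algebraMap (Zl ℓ) ℂ) := by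
      intro a b hab
      have h6 : ((a : ℚ) : ℂ) = ((b : ℚ) : ℂ) := hab
      exact Subtype.ext (Rat.cast_injective h6)
    refine Finsupp.lhom_ext' fun y => LinearMap.ext_ring ?_
    change (L.op h ∘ₗ L.op h') (Finsupp.single y 1) = (L.op h' ∘ₗ L.op h) (Finsupp.single y 1)
    refine Finsupp.ext fun x => ?_
    apply hinj
    rw [← h5, ← h5, h2]

end

end Pool.Agent.Lib.MP_666dc0_nt.EC
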