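import Pool.Agent.Lib.MP_666dc0_nt.InterpZDefs
import Pool.Agent.Lib.MP_666dc0_nt.WL.D1defs

/-!
# Euler characteristics of arithmetic groups: definitions
-/

open NumberField IsDedekindDomain
open scoped NumberField

namespace Pool.Agent.Lib.MP_666dc0_nt.EC

open WL

variable {F : Type} [Field F] [NumberField F] {n : ℕ} {D : Datum F n}

/-- An algebraic representation of `G(F ⊗ ℂ)` by complex matrices, with rows and columns indexed by
the finite set `J`. -/
structure Weight (D : Datum F n) where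
  /-- the index set -/
  J : Type
  [fin : Fintype J]
  [dec : DecidableEq J]
  /-- the representation -/
  rho : D.Cpx → Matrix J J ℂ
  one : rho 1 = 1
  mul : ∀ x y, rho (x * y) = rho x * rho y
  poly : ∀ i j, IsPoly fun x => rho x i j

/-- A smooth representation of the subgroup `K` of `G(𝔸_f)` by complex matrices, with rows and
columns indexed by the finite set `J` (the values of `sig` outside `K` do not matter). -/
structure SmRep (K : Subgroup D.Ad) where
  /-- the index set -/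
  J : Type
  [fin : Fintype J]
  [dec : DecidableEq J]
  /-- the representation -/
  sig : D.Ad → Matrix J J ℂ
  one : sig 1 = 1
  mul : ∀ k ∈ K, ∀ k' ∈ K, sig (k * k') = sig k * sig k'
  smooth : ∃ O : Set D.Ad, IsOpen O ∧ 1 ∈ O ∧ ∀ k ∈ K, k ∈ O → sig k = 1

attribute [instance] Weight.fin Weight.dec SmRep.fin SmRep.dec

variable {U K : Subgroup D.Ad}

/-- The functions `z(e_0, …, e_m; g)` of `e_0, …, e_m ∈ G(F)` and `g ∈ G(𝔸_f)` with values in
`V ⊗ s`, that is in the matrices whose rows are indexed as the matrices of `V` and whose columns are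
indexed as those of `s`. -/
abbrev Coch (V : Weight D) (s : SmRep K) (m : ℕ) : Type :=
  (Fin (m + 1) → D.Rat) → D.Ad → Matrix V.J s.J ℂ

/-- The addition of such functions. -/
noncomputable instance instCochAdd (V : Weight D) (s : SmRep K) (m : ℕ) :
    AddCommGroup (Coch V s m) :=
  Pi.addCommGroup

/-- The multiplication of such functions with complex numbers. -/
noncomputable instance instCochModule (V : Weight D) (s : SmRep K) (m : ℕ) :
    Module ℂ (Coch V s m) :=
  Pi.module _ _ _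

variable {V : Weight D} {s : SmRep K} {m : ℕ}

/-- `z` is a homogeneous cochain of `G(F)` with values in the functions `f : G(𝔸_f) → V ⊗ s` with
`f(g u k) = f(g) s(k)` for `u ∈ U`, `k ∈ K`:
`z(γ e_0, …, γ e_m; γ g u k) = V(γ) z(e_0, …, e_m; g) s(k)` for `γ ∈ G(F)`, `u ∈ U`, `k ∈ K`. -/
def IsCochain (U : Subgroup D.Ad) (z : Coch V s m) : Prop :=
  ∀ (γ : D.Rat) (e : Fin (m + 1) → D.Rat) (g : D.Ad), ∀ u ∈ U, ∀ k ∈ K,
    z (fun i => γ * e i) (D.toAd γ * g * u * k) = V.rho (D.toCpx γ) * z e g * s.sig k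

/-- The differential:
`(δ z)(e_0, …, e_{m+1}; g) = ∑ (-1)^i z(e_0, …, ê_i, …, e_{m+1}; g)`. -/
noncomputable def del (z : Coch V s m) : Coch V s (m + 1) := fun e g =>
  ∑ i : Fin (m + 2), (-1 : ℂ) ^ (i : ℕ) • z (fun j => e (i.succAbove j)) g

/-- The cochain `z` is a coboundary. -/
def IsCob (U : Subgroup D.Ad) : ∀ {m : ℕ}, Coch V s m → Prop
  | 0, z => z = 0
  | _ + 1, z => ∃ y, IsCochain U y ∧ z = del y

/-- The operator `T_h - c`, where `T_h` is the Hecke operator of `h`. -/
noncomputable def opSub {v : HeightOneSpectrum (𝓞 F)} (h : Hecke U v) (c : ℂ) (z : Coch V s m) :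
    Coch V s m := fun e => h.act (z e) - c • z e

/-- `z` is a cocycle, and its class in the cohomology is a generalised eigenvector with eigenvalues
`lam v h` of the Hecke operators of the `ℓ`-integral Hecke functions `h` at the places
`v ∉ S`. -/
def IsGen (ℓ : ℕ) [Fact ℓ.Prime] (S : Finset (HeightOneSpectrum (𝓞 F)))
    (lam : ∀ v, Hecke U v → ℂ) (z : Coch V s m) : Prop :=
  IsCochain U z ∧ del z = 0 ∧ ∀ v, v ∉ S → ∀ h : Hecke U v, h.IsIntegral ℓ →
    ∃ k : ℕ, IsCob U ((opSub h (lam v h))^[k] z)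

variable (V s m)

/-- The space of the coboundaries. -/
noncomputable def cobSpan (U : Subgroup D.Ad) : Submodule ℂ (Coch V s m) :=
  Submodule.span ℂ {z | IsCob U z}

/-- The multiplicity of the eigensystem `lam` in the cohomology of degree `m` with coefficients in
`V ⊗ s`: the dimension of the space of the classes, modulo the coboundaries, of the generalised
eigencocycles. -/
noncomputable def mult (ℓ : ℕ) [Fact ℓ.Prime] (S : Finset (HeightOneSpectrum (𝓞 F)))
    (lam : ∀ v, Hecke U v → ℂ) : ℕ :=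
  Set.finrank ℂ (Submodule.Quotient.mk (p := cobSpan V s m U) '' {z | IsGen ℓ S lam z})

/-- The Euler characteristic of the eigensystem `lam` in the cohomology with coefficients in
`V ⊗ s`: the alternating sum of its multiplicities. -/
noncomputable def euler (ℓ : ℕ) [Fact ℓ.Prime] (S : Finset (HeightOneSpectrum (𝓞 F)))
    (lam : ∀ v, Hecke U v → ℂ) : ℤ :=
  ∑ᶠ m : ℕ, (-1) ^ m * (mult V s m ℓ S lam : ℤ)

/-- The Buzzard-Gee statement for the eigensystem `lam`: the values `lam v (sat v f)` are in a number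
field `E ⊆ ℂ`, and for every embedding `ι : E → ℚ̄_ℓ` there is a homomorphism
`r : Γ_F → ᴸG(ℚ̄_ℓ)` attached to their images. -/
def Q1 (ℓ : ℕ) [Fact ℓ.Prime] {B : Type} [CommRing B] [Algebra B (PadicAlgCl ℓ)] {O : Type}
    [CommRing O] [HopfAlgebra B O] (A : OverB.HopfAction B Gal(AlgebraicClosure F/F) O)
    (S : Finset (HeightOneSpectrum (𝓞 F)))
    (φ : HeightOneSpectrum (𝓞 F) → Gal(AlgebraicClosure F/F))
    (sat : ∀ v, A.inv (φ v) → Hecke U v) (lam : ∀ v, Hecke U v → ℂ) : Prop :=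
  ∃ (E : IntermediateField ℚ ℂ) (μ : ∀ v, A.inv (φ v) → E), FiniteDimensional ℚ E ∧
    (∀ v, v ∉ S → ∀ f, (μ v f : ℂ) = lam v (sat v f)) ∧
    ∀ ι : E →+* PadicAlgCl ℓ, ∃ r : Gal(AlgebraicClosure F/F) →* A.LGroup (PadicAlgCl ℓ),
      OverB.IsAttachedTo A S φ (fun v f => ι (μ v f)) r

/-- The `SL_n(F ⊗ ℝ)`-orbit of the pair of the form `q` and of the tensors `w i` is closed in the
space of all pairs over `F ⊗ ℝ`. -/
def HasClosedOrbit (D : Datum F n) : Prop :=
  IsClosed {t : Matrix (Fin n) (Fin n) (mixedEmbedding.mixedSpace F) ×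
      (∀ i, (Fin (D.deg i) → Fin n) → mixedEmbedding.mixedSpace F) |
    ∃ h : Matrix (Fin n) (Fin n) (mixedEmbedding.mixedSpace F), h.det = 1 ∧
      t.1 = h.transpose * D.q.map (mixedEmbedding F) * h ∧
      ∀ i, tensAct h (t.2 i) = fun I => mixedEmbedding F (D.w i I)}

/-- `K` is pro-`ℓ`. -/
def IsPro (ℓ : ℕ) (K : Subgroup D.Ad) : Prop :=
  ∀ k ∈ K, Filter.Tendsto (fun m : ℕ => k ^ ℓ ^ m) Filter.atTop (nhds 1)

/-- The point `x` of `G(F ⊗ ℂ)` is the image of `g ∈ G(𝔸_f)` under the homomorphisms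
`H.s τ : 𝔸_f → ℂ`. -/
def IsImage {ℓ : ℕ} [Fact ℓ.Prime] {ι : ℂ ≃+* PadicAlgCl ℓ} (H : HatData F ℓ ι) (g : D.Ad)
    (x : D.Cpx) : Prop :=
  ∀ τ i j, coord D τ i j x = H.s τ (g.1.1 i j)

/-- The character of `V` has no zero on (the image of) `K`. -/
def NoZero {ℓ : ℕ} [Fact ℓ.Prime] {ι : ℂ ≃+* PadicAlgCl ℓ} (H : HatData F ℓ ι) (V : Weight D)
    (K : Subgroup D.Ad) : Prop :=
  ∀ k ∈ K, ∀ x, IsImage H k x → (V.rho x).trace ≠ 0

/-- The trivial representation. -/
noncomputable def Weight.triv (D : Datum F n) : Weight D where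
  J := Unit
  rho _ := 1
  one := rfl
  mul _ _ := (one_mul 1).symm
  poly i j := Subalgebra.algebraMap_mem (polyFun D) ((1 : Matrix Unit Unit ℂ) i j)

end Pool.Agent.Lib.MP_666dc0_nt.EC
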