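import Pool.Agent.Lib.MP_666dc0_nt.EC.Defs
import Pool.Agent.Lib.MP_666dc0_nt.EP.SDefs

/-!
# EC, B1: the coefficients given by a weight and a smooth representation
-/

open NumberField IsDedekindDomain
open scoped NumberField

namespace Pool.Agent.Lib.MP_666dc0_nt.EC

open WL EP

variable {F : Type} [Field F] [NumberField F] {n : ℕ} {D : Datum F n} {ℓ : ℕ}

/-- The trace of `M ↦ A M B`. -/
theorem trace_mul_mul {I J : Type} [Fintype I] [DecidableEq I] [Fintype J] [DecidableEq J]
    (A : Matrix I I ℂ) (B : Matrix J J ℂ) (f : Matrix I J ℂ →ₗ[ℂ] Matrix I J ℂ)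
    (hf : ∀ M, f M = A * M * B) : LinearMap.trace ℂ _ f = A.trace * B.trace := by
  rw [LinearMap.trace_eq_matrix_trace ℂ (Matrix.stdBasis ℂ I J)]
  unfold Matrix.trace
  rw [Fintype.sum_prod_type, Finset.sum_mul_sum]
  refine Finset.sum_congr rfl fun i _ => Finset.sum_congr rfl fun j _ => ?_
  rw [Matrix.diag_apply, LinearMap.toMatrix_apply, hf, Matrix.stdBasis_eq_single]
  have h1 : ∀ N : Matrix I J ℂ, (Matrix.stdBasis ℂ I J).repr N (i, j) = N i j := by
    intro N
    have h2 : ∀ a b, (Matrix.stdBasis ℂ I J).repr (Matrix.single a b (1 : ℂ)) (i, j) =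
        Matrix.single a b (1 : ℂ) i j := by
      intro a b
      rw [← Matrix.stdBasis_eq_single, Module.Basis.repr_self, Matrix.stdBasis_eq_single]
      rw [Finsupp.single_apply, Matrix.single_apply]
      simp only [Prod.mk.injEq]
    conv_lhs => rw [Matrix.matrix_eq_sum_single N]
    conv_rhs => rw [Matrix.matrix_eq_sum_single N]
    rw [map_sum, Finsupp.finset_sum_apply, Matrix.sum_apply]
    refine Finset.sum_congr rfl fun a _ => ?_
    rw [map_sum, Finsupp.finset_sum_apply, Matrix.sum_apply]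
    refine Finset.sum_congr rfl fun b _ => ?_
    have h3 : Matrix.single a b (N a b) = N a b • Matrix.single a b (1 : ℂ) := by
      rw [Matrix.smul_single, smul_eq_mul, mul_one]
    rw [h3, map_smul, Finsupp.smul_apply, h2, Matrix.smul_apply]
  rw [h1, Matrix.mul_apply]
  rw [Finset.sum_eq_single j]
  · rw [Matrix.mul_single_apply_same]
    simp
  · intro k _ hk
    rw [Matrix.mul_single_apply_of_ne _ _ _ _ _ hk, zero_mul]
  · intro h
    exact absurd (Finset.mem_univ _) h

/-- The representation of `G(F ⊗ ℂ)` on matrices. -/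
noncomputable def Weight.lrep (V : Weight D) (J : Type) [Fintype J] : Representation ℂ D.Cpx (Matrix V.J J ℂ) where
  toFun x :=
    { toFun := fun M => V.rho x * M
      map_add' := fun M N => Matrix.mul_add _ _ _
      map_smul' := fun c M => Matrix.mul_smul _ _ _ }
  map_one' := LinearMap.ext fun M => by
    change V.rho 1 * M = M
    rw [V.one, Matrix.one_mul]
  map_mul' x y := LinearMap.ext fun M => by
    change V.rho (x * y) * M = V.rho x * (V.rho y * M)
    rw [V.mul, Matrix.mul_assoc]

/-- The representation of `K` on matrices. -/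
noncomputable def SmRep.rrep {K : Subgroup D.Ad} (s : SmRep K) (I : Type) [Fintype I] :
    Representation ℂ K (Matrix I s.J ℂ) where
  toFun k :=
    { toFun := fun M => M * s.sig (k : D.Ad)⁻¹
      map_add' := fun M N => Matrix.add_mul _ _ _
      map_smul' := fun c M => Matrix.smul_mul _ _ _ }
  map_one' := LinearMap.ext fun M => by
    change M * s.sig ((1 : K) : D.Ad)⁻¹ = M
    rw [Subgroup.coe_one, inv_one, s.one, Matrix.mul_one]
  map_mul' k k' := LinearMap.ext fun M => by
    change M * s.sig ((k * k' : K) : D.Ad)⁻¹ = M * s.sig (k' : D.Ad)⁻¹ * s.sig (k : D.Ad)⁻¹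
    rw [Subgroup.coe_mul, mul_inv_rev, s.mul _ (K.inv_mem k'.2) _ (K.inv_mem k.2),
      Matrix.mul_assoc]

variable (L : Level D ℓ)

/-- The coefficients given by a weight and a smooth representation. -/
noncomputable def pairC (V : Weight D) (s : SmRep L.K) : Coeff L where
  W := Matrix V.J s.J ℂ
  rho := V.lrep s.J
  sig := s.rrep V.J
  alg M ξ := by
    have h : (fun x => ξ (V.lrep s.J x M)) = ∑ i, ∑ j, ∑ l, (fun x => V.rho x i l) *
        algebraMap ℂ (D.Cpx → ℂ) (M l j * ξ (Matrix.single i j 1)) := by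
      funext x
      have h1 : V.lrep s.J x M = ∑ i, ∑ j, (V.rho x * M) i j • Matrix.single i j (1 : ℂ) := by
        change V.rho x * M = _
        conv_lhs => rw [Matrix.matrix_eq_sum_single (V.rho x * M)]
        refine Finset.sum_congr rfl fun i _ => Finset.sum_congr rfl fun j _ => ?_
        rw [Matrix.smul_single, smul_eq_mul, mul_one]
      rw [h1, map_sum, Finset.sum_apply]
      refine Finset.sum_congr rfl fun i _ => ?_
      rw [map_sum, Finset.sum_apply]
      refine Finset.sum_congr rfl fun j _ => ?_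
      rw [map_smul, smul_eq_mul, Matrix.mul_apply, Finset.sum_mul, Finset.sum_apply]
      refine Finset.sum_congr rfl fun l _ => ?_
      rw [mul_assoc]
      rfl
    rw [h]
    refine Subalgebra.sum_mem _ fun i _ => Subalgebra.sum_mem _ fun j _ =>
      Subalgebra.sum_mem _ fun l _ => ?_
    exact Subalgebra.mul_mem _ (V.poly i l) (Subalgebra.algebraMap_mem _ _)
  smooth := by
    have h1 : {k : L.K | s.rrep V.J k = 1} = ((s.rrep V.J).ker : Set L.K) := rfl
    rw [h1]
    refine Subgroup.isOpen_of_mem_nhds _ (g := 1) ?_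
    obtain ⟨O, hO, hO1, hOk⟩ := s.smooth
    have h2 : Continuous fun k : L.K => (k : D.Ad)⁻¹ := continuous_inv.comp continuous_subtype_val
    have h3 : (fun k : L.K => (k : D.Ad)⁻¹) ⁻¹' O ∈ nhds (1 : L.K) := by
      refine (hO.preimage h2).mem_nhds ?_
      change ((1 : L.K) : D.Ad)⁻¹ ∈ O
      rw [Subgroup.coe_one, inv_one]
      exact hO1
    filter_upwards [h3] with k hk
    change s.rrep V.J k = 1
    refine LinearMap.ext fun M => ?_
    change M * s.sig (k : D.Ad)⁻¹ = M
    rw [hOk _ (L.K.inv_mem k.2) hk, Matrix.mul_one]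
  comm x k := LinearMap.ext fun M => by
    change V.rho x * (M * s.sig (k : D.Ad)⁻¹) = V.rho x * M * s.sig (k : D.Ad)⁻¹
    rw [Matrix.mul_assoc]

variable {L}

theorem pairC_rep (V : Weight D) (s : SmRep L.K) (a : D.Rat × L.K) (M : Matrix V.J s.J ℂ) :
    (pairC L V s).rep a M = V.rho (D.toCpx a.1) * (M * s.sig (a.2 : D.Ad)⁻¹) := rfl

theorem pairC_trace (V : Weight D) (s : SmRep L.K) (x : D.Cpx) (k : L.K) :
    LinearMap.trace ℂ (pairC L V s).W ((pairC L V s).rho x * (pairC L V s).sig k) =
      (V.rho x).trace * (s.sig (k : D.Ad)⁻¹).trace := by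
  refine trace_mul_mul (V.rho x) (s.sig (k : D.Ad)⁻¹) _ fun M => ?_
  change V.rho x * (M * s.sig (k : D.Ad)⁻¹) = _
  rw [Matrix.mul_assoc]

end Pool.Agent.Lib.MP_666dc0_nt.EC
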