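import Pool.Agent.Lib.MP_666dc0_nt.EC.B1
import Pool.Agent.Lib.MP_666dc0_nt.EP.U4

/-!
# EC, B5: approximation of the characters by those of the pairs
-/

open NumberField IsDedekindDomain
open scoped NumberField

namespace Pool.Agent.Lib.MP_666dc0_nt.EC

open WL EP

variable {F : Type} [Field F] [NumberField F] {n : ℕ} {D : Datum F n} {ℓ : ℕ} [Fact ℓ.Prime]
  {L : Level D ℓ} {ι : ℂ ≃+* PadicAlgCl ℓ}

/-- The smooth representation of `K` given by a representation over `ℚ̄_ℓ` with open kernel. -/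
theorem exists_smRep {e : ℕ} (σ : L.K →* GL (Fin e) (PadicAlgCl ℓ))
    (hσ : IsOpen (σ.ker : Set L.K)) : ∃ s : SmRep L.K, ∀ k : L.K,
      (s.sig (k : D.Ad)).trace = ι.symm ((σ k : Matrix (Fin e) (Fin e) (PadicAlgCl ℓ)).trace) := by
  classical
  let M : L.K → Matrix (Fin e) (Fin e) ℂ := fun k =>
    (σ k : Matrix (Fin e) (Fin e) (PadicAlgCl ℓ)).map (ι.symm : PadicAlgCl ℓ →+* ℂ)
  have hM1 : M 1 = 1 := by
    change ((σ 1 : GL (Fin e) (PadicAlgCl ℓ)) : Matrix (Fin e) (Fin e) (PadicAlgCl ℓ)).map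
      (ι.symm : PadicAlgCl ℓ →+* ℂ) = 1
    rw [map_one, Units.val_one]
    exact Matrix.map_one _ (map_zero _) (map_one _)
  have hMm : ∀ k k', M (k * k') = M k * M k' := by
    intro k k'
    change ((σ (k * k') : GL (Fin e) (PadicAlgCl ℓ)) :
      Matrix (Fin e) (Fin e) (PadicAlgCl ℓ)).map (ι.symm : PadicAlgCl ℓ →+* ℂ) = _
    rw [map_mul, Units.val_mul]
    exact Matrix.map_mul
  let sg : D.Ad → Matrix (Fin e) (Fin e) ℂ := fun g => if hg : g ∈ L.K then M ⟨g, hg⟩ else 1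
  have hsg : ∀ k : L.K, sg (k : D.Ad) = M k := fun k => dif_pos k.2
  obtain ⟨O, hO, hO'⟩ := isOpen_induced_iff.1 hσ
  refine ⟨⟨Fin e, sg, ?_, ?_, ⟨O, hO, ?_, ?_⟩⟩, fun k => ?_⟩
  · have h := hsg 1
    rw [Subgroup.coe_one] at h
    rw [h, hM1]
  · intro k hk k' hk'
    have h := hsg (⟨k, hk⟩ * ⟨k', hk'⟩)
    rw [Subgroup.coe_mul] at h
    rw [h, hMm, ← hsg, ← hsg]
  · have h : (1 : L.K) ∈ Subtype.val ⁻¹' O := by
      rw [hO']
      exact σ.ker.one_mem
    exact h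
  · intro k hk hkO
    have h : (⟨k, hk⟩ : L.K) ∈ (σ.ker : Set L.K) := by
      rw [← hO']
      exact hkO
    have h1 : σ ⟨k, hk⟩ = σ 1 := by
      rw [map_one]
      exact h
    have h2 : sg k = M ⟨k, hk⟩ := hsg ⟨k, hk⟩
    rw [h2, ← hM1]
    change ((σ ⟨k, hk⟩ : GL (Fin e) (PadicAlgCl ℓ)) : Matrix (Fin e) (Fin e) (PadicAlgCl ℓ)).map
      (ι.symm : PadicAlgCl ℓ →+* ℂ) = ((σ 1 : GL (Fin e) (PadicAlgCl ℓ)) :
      Matrix (Fin e) (Fin e) (PadicAlgCl ℓ)).map (ι.symm : PadicAlgCl ℓ →+* ℂ)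
    rw [h1]
  · change (sg (k : D.Ad)).trace = _
    rw [hsg]
    change ((σ k : Matrix (Fin e) (Fin e) (PadicAlgCl ℓ)).map
      (ι.symm : PadicAlgCl ℓ →+* ℂ)).trace = _
    rw [Matrix.trace, Matrix.trace, map_sum]
    rfl

theorem pairC_chi (V : Weight D) (s : SmRep L.K) (H : HatData F ℓ ι) (k : L.K) :
    (pairC L V s).chi H k =
      ι ((V.rho (H.hat D k)).trace) * ι ((s.sig (k : D.Ad)⁻¹).trace) := by
  unfold Coeff.chi
  rw [pairC_trace, map_mul]

/-- The trivial representation. -/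
noncomputable def smTriv (K : Subgroup D.Ad) : SmRep K where
  J := Unit
  sig _ := 1
  one := rfl
  mul _ _ _ _ := (one_mul 1).symm
  smooth := ⟨Set.univ, isOpen_univ, Set.mem_univ _, fun _ _ _ => rfl⟩

theorem smTriv_chi (V : Weight D) (H : HatData F ℓ ι) (k : L.K) :
    (pairC L V (smTriv L.K)).chi H k = ι ((V.rho (H.hat D k)).trace) := by
  rw [pairC_chi]
  have h : ((smTriv L.K).sig (k : D.Ad)⁻¹).trace = 1 := by
    change (1 : Matrix Unit Unit ℂ).trace = 1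
    rw [Matrix.trace_one]
    simp
  rw [h, map_one, mul_one]

/-- The character of the coefficients `C` is approximated by those of the coefficients `V ⊗ s`, if
the character of `V` has no zero. -/
theorem exists_approx_pair (C : Coeff L) (H : HatData F ℓ ι) (V : Weight D)
    (hV : ∀ k : L.K, (V.rho (H.hat D k)).trace ≠ 0) {ε : ℝ} (hε : 0 < ε) :
    ∃ (m : ℕ) (C' : Fin m → Coeff L) (b : Fin m → PadicAlgCl ℓ),
      (∀ j, ∃ s, C' j = pairC L V s) ∧ ∀ k, ‖C.chi H k - ∑ j, b j * (C' j).chi H k‖ ≤ ε := by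
  have := L.compactSpace_K
  let P : Coeff L := pairC L V (smTriv L.K)
  have hP : ∀ k, P.chi H k = ι ((V.rho (H.hat D k)).trace) := smTriv_chi V H
  have hP0 : ∀ k, P.chi H k ≠ 0 := by
    intro k
    rw [hP, map_ne_zero_iff ι ι.injective]
    exact hV k
  obtain ⟨M, hM, hbound⟩ := P.exists_bound_chi H
  obtain ⟨m, e, σ, b, hopen, happ⟩ := exists_approx_characters_of_class
    (fun k => C.chi H k⁻¹ / P.chi H k⁻¹)
    (((C.continuous_chi H).comp continuous_inv).div₀ ((P.continuous_chi H).comp continuous_inv)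
      fun k => hP0 _)
    (fun g k => by
      have h1 : (g * k * g⁻¹)⁻¹ = g * k⁻¹ * g⁻¹ := by group
      beta_reduce
      rw [h1, C.chi_conj, P.chi_conj]) (div_pos hε hM)
  have hex : ∀ j, ∃ s : SmRep L.K, ∀ k : L.K,
      (s.sig (k : D.Ad)).trace =
        ι.symm ((σ j k : Matrix (Fin (e j)) (Fin (e j)) (PadicAlgCl ℓ)).trace) :=
    fun j => exists_smRep (σ j) (hopen j)
  choose s hs using hex
  refine ⟨m, fun j => pairC L V (s j), b, fun j => ⟨s j, rfl⟩, fun k => ?_⟩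
  have hj : ∀ j, (pairC L V (s j)).chi H k = P.chi H k *
      (σ j k⁻¹ : Matrix (Fin (e j)) (Fin (e j)) (PadicAlgCl ℓ)).trace := by
    intro j
    rw [pairC_chi, hP]
    have h1 := hs j k⁻¹
    rw [Subgroup.coe_inv] at h1
    rw [h1, RingEquiv.apply_symm_apply]
  have heq : C.chi H k - ∑ j, b j * (pairC L V (s j)).chi H k = P.chi H k *
      (C.chi H k / P.chi H k -
        ∑ j, b j * (σ j k⁻¹ : Matrix (Fin (e j)) (Fin (e j)) (PadicAlgCl ℓ)).trace) := by
    rw [mul_sub, mul_div_cancel₀ _ (hP0 k), Finset.mul_sum]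
    congr 1
    refine Finset.sum_congr rfl fun j _ => ?_
    rw [hj j]
    ring
  rw [heq, norm_mul]
  have h2 := happ k⁻¹
  rw [inv_inv] at h2
  calc ‖P.chi H k‖ * ‖C.chi H k / P.chi H k -
        ∑ j, b j * (σ j k⁻¹ : Matrix (Fin (e j)) (Fin (e j)) (PadicAlgCl ℓ)).trace‖
      ≤ M * (ε / M) := mul_le_mul (hbound k) h2 (norm_nonneg _) hM.le
    _ = ε := mul_div_cancel₀ _ hM.ne'

end Pool.Agent.Lib.MP_666dc0_nt.EC
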