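import Pool.Agent.Lib.MP_666dc0_nt.Mg.G097
import Pool.Agent.Lib.MP_666dc0_nt.EC.B5
import Pool.Agent.Lib.MP_666dc0_nt.EP.U5

/-!
# EC, B6: the main theorem for a level of finite type
-/

open NumberField IsDedekindDomain TensorProduct
open scoped NumberField TensorProduct

namespace Pool.Agent.Lib.MP_666dc0_nt.EC

open WL EP

section

variable {F : Type} [Field F] [NumberField F] {n : ℕ} {D : Datum F n} {ℓ : ℕ} [Fact ℓ.Prime]
  {L : Level D ℓ} {S : Finset (HeightOneSpectrum (𝓞 F))}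
  {B : Type} [CommRing B] [Algebra B (PadicAlgCl ℓ)] {O : Type} [CommRing O]
  [HopfAlgebra B O] {A : OverB.HopfAction B Gal(AlgebraicClosure F/F) O}
  {φ : HeightOneSpectrum (𝓞 F) → Gal(AlgebraicClosure F/F)}
  {sat : ∀ v, A.inv (φ v) → Hecke L.U v}

/-- The integral Hecke functions `sat v f`. -/
noncomputable def satD (sat : ∀ v, A.inv (φ v) → Hecke L.U v)
    (hsat : ∀ v f, (sat v f).IsIntegral ℓ) : ∀ v, A.inv (φ v) → L.Hecke v :=
  fun v f => ofInt L (sat v f) (hsat v f)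

theorem toD_satD (hsat : ∀ v f, (sat v f).IsIntegral ℓ) (lam : ∀ v, Hecke L.U v → ℂ)
    (v : HeightOneSpectrum (𝓞 F)) (hv : v ∉ S) (f : A.inv (φ v)) :
    toD L S lam ⟨⟨v, hv⟩, satD sat hsat v f⟩ = lam v (sat v f) := by
  change lam v (toW L (ofInt L (sat v f) (hsat v f))) = _
  rw [toW_ofInt]

theorem q1_iff (hsat : ∀ v f, (sat v f).IsIntegral ℓ) (lam : ∀ v, Hecke L.U v → ℂ) :
    Q1 ℓ A S φ sat lam ↔ EP.Q1 S A φ (satD sat hsat) (toD L S lam) := by
  unfold Q1 EP.Q1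
  refine exists_congr fun E => exists_congr fun μ => and_congr Iff.rfl (and_congr ?_ Iff.rfl)
  refine forall_congr' fun v => forall_congr' fun hv => forall_congr' fun f => ?_
  rw [toD_satD]

theorem attAt_iff' (hsat : ∀ v f, (sat v f).IsIntegral ℓ) (lam : ∀ v, Hecke L.U v → ℂ)
    (ι : ℂ ≃+* PadicAlgCl ℓ) :
    (∃ r : Gal(AlgebraicClosure F/F) →* A.LGroup (PadicAlgCl ℓ),
      OverB.IsAttachedTo A S φ (fun v f => ι (lam v (sat v f))) r) ↔
      AttAt S A φ (satD sat hsat) ι (toD L S lam) := by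
  constructor
  · rintro ⟨r, hr⟩
    exact ⟨_, r, fun v hv f => by rw [toD_satD hsat lam v hv f], hr⟩
  · rintro ⟨w, r, hw, hr⟩
    refine ⟨r, hr.proj, hr.cont, hr.unram, fun v hv f => ?_⟩
    rw [hr.value v hv f, hw v hv f, toD_satD hsat lam v hv f]

end

theorem isImage_hat {F : Type} [Field F] [NumberField F] {n : ℕ} {D : Datum F n} {ℓ : ℕ}
    [Fact ℓ.Prime] {ι : ℂ ≃+* PadicAlgCl ℓ} (H : HatData F ℓ ι) (g : D.Ad) :
    IsImage H g (H.hat D g) := fun τ i j => H.coord_hat g τ i j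

theorem main_of_level {F : Type} [Field F] [NumberField F] {n : ℕ} {D : Datum F n}
    {ℓ : ℕ} [Fact ℓ.Prime] (L : Level D ℓ) (hfd : IsFD (Zl ℓ) (D.Rat × L.K) L.X)
    (S : Finset (HeightOneSpectrum (𝓞 F)))
    (hSl : ∀ v : HeightOneSpectrum (𝓞 F), (ℓ : 𝓞 F) ∈ v.asIdeal → v ∈ S)
    (hgood : ∀ v, v ∉ S → IsGoodAt L.U v)
    {B : Type} [CommRing B] [IsDomain B] [IsPrincipalIdealRing B] [Algebra B ℚ]
    [IsFractionRing B ℚ] [Algebra B (PadicAlgCl ℓ)]
    {O : Type} [CommRing O] [HopfAlgebra B O] [Algebra.FiniteType B O] [Module.Free B O]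
    (hO : LinearlyReductive (ℚ ⊗[B] O)) (A : OverB.HopfAction B Gal(AlgebraicClosure F/F) O)
    (hA : IsOpen (A.act.ker : Set Gal(AlgebraicClosure F/F)))
    (hS : ∀ v, v ∉ S → ∀ P u, IsInertiaAt v P u → A.act u = 1)
    (φ : HeightOneSpectrum (𝓞 F) → Gal(AlgebraicClosure F/F))
    (hφ : ∀ v, v ∉ S → ∃ P : Ideal (𝓞 (AlgebraicClosure F)), IsOver v P ∧
      (IsFrob v P (φ v) ∨ IsFrob v P (φ v)⁻¹))
    (sat : ∀ v, A.inv (φ v) → Hecke L.U v) (hsat : ∀ v f, (sat v f).IsIntegral ℓ)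
    (hP : ∀ (ι : ℂ ≃+* PadicAlgCl ℓ) (H : HatData F ℓ ι) (V : Weight D), IsPro ℓ L.K →
      ¬ ℓ ∣ Fintype.card V.J → ∀ k : L.K, (V.rho (H.hat D k)).trace ≠ 0) :
    List.TFAE [
      ∀ (V : Weight D) (s : SmRep L.K) (lam : ∀ v, Hecke L.U v → ℂ), euler V s ℓ S lam ≠ 0 →
        Q1 ℓ A S φ sat lam,
      ∀ (s : SmRep L.K) (lam : ∀ v, Hecke L.U v → ℂ), euler (Weight.triv D) s ℓ S lam ≠ 0 →
        Q1 ℓ A S φ sat lam,
      ∃ (ι : ℂ ≃+* PadicAlgCl ℓ) (H : HatData F ℓ ι) (V : Weight D),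
        (NoZero H V L.K ∨ IsPro ℓ L.K ∧ ¬ ℓ ∣ Fintype.card V.J) ∧
        ∀ (s : SmRep L.K) (lam : ∀ v, Hecke L.U v → ℂ), euler V s ℓ S lam ≠ 0 →
          ∃ r : Gal(AlgebraicClosure F/F) →* A.LGroup (PadicAlgCl ℓ),
            OverB.IsAttachedTo A S φ (fun v f => ι (lam v (sat v f))) r] := by
  classical
  have hgood' : ∀ v, v ∉ S → L.IsGoodAt v := fun v hv => isGoodAt L (hgood v hv)
  have hs : Setup L S := ⟨hSl, hgood', hfd⟩
  tfae_have 1 → 2 := fun h s lam h1 => h (Weight.triv D) s lam h1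
  tfae_have 2 → 3 := by
    intro h
    obtain ⟨ι, -⟩ := exists_iso_extending (k := ℚ) ℓ Cardinal.mk_le_aleph0 (algebraMap ℚ ℂ)
      (algebraMap ℚ (PadicAlgCl ℓ))
    obtain ⟨H⟩ := exists_hatData F ℓ ι
    refine ⟨ι, H, Weight.triv D, Or.inl fun k _ x _ => ?_, fun s lam hlam => ?_⟩
    · change (1 : Matrix Unit Unit ℂ).trace ≠ 0
      rw [Matrix.trace_one]
      simp
    · rw [attAt_iff' hsat, attAt_iff]
      exact ((q1_iff hsat lam).1 (h s lam hlam)).att ι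
  tfae_have 3 → 1 := by
    rintro ⟨ι₀, H₀, V, hV', h⟩
    have hV : ∀ k : L.K, (V.rho (H₀.hat D k)).trace ≠ 0 := by
      rcases hV' with hV' | ⟨h1, h2⟩
      · exact fun k => hV' (k : D.Ad) k.2 _ (isImage_hat (D := D) H₀ (k : D.Ad))
      · exact hP ι₀ H₀ V h1 h2
    -- representations for all weights and for the given isomorphism
    have hA1 : ∀ (C : Coeff L) (lam : Idx L S → ℂ), C.euler S lam ≠ 0 →
        AttAt S A φ (satD sat hsat) ι₀ lam := by
      intro C lam hlam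
      rw [attAt_iff]
      refine att_of_controlled hO A hA hS φ hφ (satD sat hsat)
        (famOf ι₀ L S fun C' => ∃ s, C' = pairC L V s) (homOf ι₀ lam)
        (hs.controlled_of H₀ _ (fun ε hε => exists_approx_pair C H₀ V hV hε) hlam) ?_ ?_ ?_
      · rintro ψ hψ
        rcases Set.mem_insert_iff.1 hψ with rfl | ⟨C', y', _, hy', rfl⟩
        · exact hs.exists_field H₀ hlam
        · exact hs.exists_field H₀ hy'
      · rintro ψ hψ
        rcases Set.mem_insert_iff.1 hψ with rfl | ⟨C', y', _, hy', rfl⟩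
        · exact hs.norm_le_one H₀ hlam
        · exact hs.norm_le_one H₀ hy'
      · rintro ψ ⟨C', y', ⟨s, rfl⟩, hy', rfl⟩
        obtain ⟨lam', rfl⟩ := exists_toD S y'
        rw [← attAt_iff, ← attAt_iff' hsat]
        refine h s lam' ?_
        rw [euler_eq hSl hgood]
        exact hy'
    -- weight zero, all isomorphisms
    have hA2 : ∀ (C : Coeff L) (lam : Idx L S → ℂ), C.rho = 1 → C.euler S lam ≠ 0 →
        ∀ ι : ℂ ≃+* PadicAlgCl ℓ, AttAt S A φ (satD sat hsat) ι lam := by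
      intro C lam hC hlam ι
      obtain ⟨C', hC', hconj⟩ := C.exists_conj hC (ι.trans ι₀.symm)
      rw [hconj S lam] at hlam
      obtain ⟨w, r, hw, hr⟩ := hA1 C' _ hlam
      refine ⟨w, r, fun v hv f => ?_, hr⟩
      rw [hw v hv f]
      exact ι₀.apply_symm_apply (ι (lam ⟨⟨v, hv⟩, satD sat hsat v f⟩))
    have hA3 := (main_EP L hfd S hSl hgood' hO A hA hS φ hφ (satD sat hsat)).2
      fun C lam hC hlam => q1_of_att hO hSl hA hS hφ lam (hA2 C lam hC hlam)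
    intro V' s lam hlam
    rw [q1_iff hsat]
    refine hA3 (pairC L V' s) _ ?_
    rw [← euler_eq hSl hgood]
    exact hlam
  tfae_finish

end Pool.Agent.Lib.MP_666dc0_nt.EC
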