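import Pool.Agent.Lib.MP_666dc0_nt.EC.B6
import Pool.Agent.Lib.MP_666dc0_nt.EP.BW6
import Pool.Agent.Lib.MP_666dc0_nt.Mg.G064
import Pool.Agent.Lib.MP_666dc0_nt.EP.P1c

/-!
# EC, B7: the main theorem
-/

open NumberField IsDedekindDomain TensorProduct
open scoped NumberField TensorProduct

namespace Pool.Agent.Lib.MP_666dc0_nt.EC

open WL EP

theorem trace_ne_zero {F : Type} [Field F] [NumberField F] {n : ℕ} {D : Datum F n}
    {ℓ : ℕ} [Fact ℓ.Prime] (L : Level D ℓ) (ι : ℂ ≃+* PadicAlgCl ℓ) (H : HatData F ℓ ι)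
    (V : Weight D) (hpro : IsPro ℓ L.K) (hV : ¬ ℓ ∣ Fintype.card V.J) (k : L.K) :
    (V.rho (H.hat D k)).trace ≠ 0 := by
  have h1 : Module.finrank ℂ (pairC L V (smTriv L.K)).W = Fintype.card V.J := by
    change Module.finrank ℂ (Matrix V.J Unit ℂ) = _
    rw [Module.finrank_matrix]
    simp
  have h2 := (pairC L V (smTriv L.K)).chi_ne_zero_of_isPro H hpro (by rw [h1]; exact hV) k
  rw [smTriv_chi, map_ne_zero_iff ι ι.injective] at h2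
  exact h2

/-- The main theorem. -/
theorem main {F : Type} [Field F] [NumberField F] {n : ℕ} {D : Datum F n}
    (hq : D.q.det ≠ 0) (hcl : HasClosedOrbit D)
    {ℓ : ℕ} [Fact ℓ.Prime] {U K : Subgroup D.Ad} (hU : IsTame ℓ U) (hK : IsLevel ℓ U K)
    (S : Finset (HeightOneSpectrum (𝓞 F)))
    (hSl : ∀ v : HeightOneSpectrum (𝓞 F), (ℓ : 𝓞 F) ∈ v.asIdeal → v ∈ S)
    (hgood : ∀ v, v ∉ S → IsGoodAt U v)
    {B : Type} [CommRing B] [IsDomain B] [IsPrincipalIdealRing B] [Algebra B ℚ]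
    [IsFractionRing B ℚ] [Algebra B (PadicAlgCl ℓ)]
    {O : Type} [CommRing O] [HopfAlgebra B O] [Algebra.FiniteType B O] [Module.Free B O]
    (hO : LinearlyReductive (ℚ ⊗[B] O)) (A : OverB.HopfAction B Gal(AlgebraicClosure F/F) O)
    (hA : IsOpen (A.act.ker : Set Gal(AlgebraicClosure F/F)))
    (hS : ∀ v, v ∉ S → ∀ P u, IsInertiaAt v P u → A.act u = 1)
    (φ : HeightOneSpectrum (𝓞 F) → Gal(AlgebraicClosure F/F))
    (hφ : ∀ v, v ∉ S → ∃ P : Ideal (𝓞 (AlgebraicClosure F)), IsOver v P ∧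
      (IsFrob v P (φ v) ∨ IsFrob v P (φ v)⁻¹))
    (sat : ∀ v, A.inv (φ v) → Hecke U v) (hsat : ∀ v f, (sat v f).IsIntegral ℓ) :
    List.TFAE [
      ∀ (V : Weight D) (s : SmRep K) (lam : ∀ v, Hecke U v → ℂ), euler V s ℓ S lam ≠ 0 →
        Q1 ℓ A S φ sat lam,
      ∀ (s : SmRep K) (lam : ∀ v, Hecke U v → ℂ), euler (Weight.triv D) s ℓ S lam ≠ 0 →
        Q1 ℓ A S φ sat lam,
      ∃ (ι : ℂ ≃+* PadicAlgCl ℓ) (H : HatData F ℓ ι) (V : Weight D),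
        (NoZero H V K ∨ IsPro ℓ K ∧ ¬ ℓ ∣ Fintype.card V.J) ∧
        ∀ (s : SmRep K) (lam : ∀ v, Hecke U v → ℂ), euler V s ℓ S lam ≠ 0 →
          ∃ r : Gal(AlgebraicClosure F/F) →* A.LGroup (PadicAlgCl ℓ),
            OverB.IsAttachedTo A S φ (fun v f => ι (lam v (sat v f))) r] := by
  obtain ⟨L, rfl, rfl⟩ : ∃ L : Level D ℓ, L.U = U ∧ L.K = K := ⟨⟨U, K, hU, hK⟩, rfl, rfl⟩
  have hfd : IsFD (Zl ℓ) (D.Rat × L.K) L.X := L.isFD (Zl ℓ) hq (closed_uR hq hcl)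
  exact main_of_level L hfd S hSl hgood hO A hA hS φ hφ sat hsat (trace_ne_zero L)

end Pool.Agent.Lib.MP_666dc0_nt.EC
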